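import Pool.Agent.Q291.MK.Stm5

/-! # Project MK (helper291), job RH2: the function `I` to fourth order -/

set_option autoImplicit false

namespace Pool.Agent.Q121.MK

open Pool.Agent.Q291.MK Finset

theorem C_anti : Antitone fun n : ℕ => I n ^ 2 * ((n : ℝ) + 7 / 4) ^ 3 := by
  refine antitone_nat_of_succ_le fun n => ?_
  rw [I_succ]
  have hI := I_pos n
  have hn : (0 : ℝ) ≤ n := Nat.cast_nonneg n
  have e : ((2 : ℝ) * n + 3) / (2 * n + 6) = (n + 3 / 2) / (n + 3) := by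
    rw [div_eq_div_iff (by positivity) (by positivity)]
    ring
  rw [e]
  push_cast
  have h1 : ((n + 3 / 2) / (n + 3)) ^ 2 * ((n : ℝ) + 1 + 7 / 4) ^ 3 ≤ ((n : ℝ) + 7 / 4) ^ 3 := by
    rw [div_pow, div_mul_eq_mul_div, div_le_iff₀ (by positivity)]
    have h2 : ((n : ℝ) + 7 / 4) ^ 3 * (n + 3) ^ 2 - (n + 3 / 2) ^ 2 * (n + 1 + 7 / 4) ^ 3 =
        5 / 16 * (n + 9 / 4) ^ 2 - 9 / 64 := by ring
    nlinarith
  calc (I n * ((n + 3 / 2) / (n + 3))) ^ 2 * ((n : ℝ) + 1 + 7 / 4) ^ 3 =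
        I n ^ 2 * (((n + 3 / 2) / (n + 3)) ^ 2 * ((n : ℝ) + 1 + 7 / 4) ^ 3) := by ring
    _ ≤ _ := mul_le_mul_of_nonneg_left h1 (by positivity)

theorem D_mono : Monotone fun n : ℕ =>
    I n ^ 2 * (((n : ℝ) + 7 / 4) ^ 3 - 5 / 32 * ((n : ℝ) + 7 / 4)) := by
  refine monotone_nat_of_le_succ fun n => ?_
  rw [I_succ]
  have hI := I_pos n
  have hn : (0 : ℝ) ≤ n := Nat.cast_nonneg n
  have e : ((2 : ℝ) * n + 3) / (2 * n + 6) = (n + 3 / 2) / (n + 3) := by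
    rw [div_eq_div_iff (by positivity) (by positivity)]
    ring
  rw [e]
  push_cast
  have h1 : ((n : ℝ) + 7 / 4) ^ 3 - 5 / 32 * ((n : ℝ) + 7 / 4) ≤
      ((n + 3 / 2) / (n + 3)) ^ 2 * (((n : ℝ) + 1 + 7 / 4) ^ 3 - 5 / 32 * ((n : ℝ) + 1 + 7 / 4)) := by
    rw [div_pow ((n : ℝ) + 3 / 2), div_mul_eq_mul_div ((((n : ℝ) + 3 / 2)) ^ 2),
      le_div_iff₀ (by positivity)]
    have h2 : ((n : ℝ) + 3 / 2) ^ 2 * (((n : ℝ) + 1 + 7 / 4) ^ 3 - 5 / 32 * ((n : ℝ) + 1 + 7 / 4)) -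
        (((n : ℝ) + 7 / 4) ^ 3 - 5 / 32 * ((n : ℝ) + 7 / 4)) * (n + 3) ^ 2 = 27 / 512 := by ring
    linarith
  calc I n ^ 2 * (((n : ℝ) + 7 / 4) ^ 3 - 5 / 32 * ((n : ℝ) + 7 / 4)) ≤
        I n ^ 2 * (((n + 3 / 2) / (n + 3)) ^ 2 *
          (((n : ℝ) + 1 + 7 / 4) ^ 3 - 5 / 32 * ((n : ℝ) + 1 + 7 / 4))) :=
        mul_le_mul_of_nonneg_left h1 (by positivity)
    _ = _ := by ring

theorem taylor4 {y : ℝ} (hy : 1 / 2 ≤ y) :
    |1 / y ^ 3 - q4 (y ^ 2 - 1)| ≤ 20 * |y ^ 2 - 1| ^ 5 := by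
  have hy0 : 0 < y := by linarith
  have e : 1 / y ^ 3 - q4 (y ^ 2 - 1) =
      -((y - 1) ^ 5 * ((315 / 128 * y ^ 6 + 1575 / 128 * y ^ 5 + 3185 / 128 * y ^ 4 +
        3325 / 128 * y ^ 3 + 15 * y ^ 2 + 5 * y + 1) / y ^ 3)) := by
    unfold q4
    field_simp
    ring
  have hP : 315 / 128 * y ^ 6 + 1575 / 128 * y ^ 5 + 3185 / 128 * y ^ 4 +
        3325 / 128 * y ^ 3 + 15 * y ^ 2 + 5 * y + 1 ≤ 20 * (y + 1) ^ 5 * y ^ 3 := by
    obtain ⟨t, rfl⟩ : ∃ t, y = 1 / 2 + t := ⟨y - 1 / 2, by ring⟩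
    have ht : 0 ≤ t := by linarith
    have h1 : 20 * (1 / 2 + t + 1) ^ 5 * (1 / 2 + t) ^ 3 - (315 / 128 * (1 / 2 + t) ^ 6 +
        1575 / 128 * (1 / 2 + t) ^ 5 + 3185 / 128 * (1 / 2 + t) ^ 4 +
        3325 / 128 * (1 / 2 + t) ^ 3 + 15 * (1 / 2 + t) ^ 2 + 5 * (1 / 2 + t) + 1) =
        53323 / 8192 + 30965 / 256 * t + 1193775 / 2048 * t ^ 2 + 43555 / 32 * t ^ 3 +
          926785 / 512 * t ^ 4 + 23125 / 16 * t ^ 5 + 88005 / 128 * t ^ 6 + 180 * t ^ 7 +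
          20 * t ^ 8 := by ring
    have h2 : 0 ≤ 53323 / 8192 + 30965 / 256 * t + 1193775 / 2048 * t ^ 2 + 43555 / 32 * t ^ 3 +
          926785 / 512 * t ^ 4 + 23125 / 16 * t ^ 5 + 88005 / 128 * t ^ 6 + 180 * t ^ 7 +
          20 * t ^ 8 := by positivity
    linarith
  have h3 : (315 / 128 * y ^ 6 + 1575 / 128 * y ^ 5 + 3185 / 128 * y ^ 4 +
        3325 / 128 * y ^ 3 + 15 * y ^ 2 + 5 * y + 1) / y ^ 3 ≤ 20 * (y + 1) ^ 5 := by
    rw [div_le_iff₀ (by positivity)]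
    exact hP
  have h4 : 0 ≤ (315 / 128 * y ^ 6 + 1575 / 128 * y ^ 5 + 3185 / 128 * y ^ 4 +
        3325 / 128 * y ^ 3 + 15 * y ^ 2 + 5 * y + 1) / y ^ 3 := by positivity
  rw [e, abs_neg, abs_mul, abs_of_nonneg h4, abs_pow]
  calc |y - 1| ^ 5 * ((315 / 128 * y ^ 6 + 1575 / 128 * y ^ 5 + 3185 / 128 * y ^ 4 +
        3325 / 128 * y ^ 3 + 15 * y ^ 2 + 5 * y + 1) / y ^ 3) ≤
        |y - 1| ^ 5 * (20 * (y + 1) ^ 5) := mul_le_mul_of_nonneg_left h3 (by positivity)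
    _ = 20 * (|y - 1| * (y + 1)) ^ 5 := by ring
    _ = 20 * |y ^ 2 - 1| ^ 5 := by
        rw [show y ^ 2 - 1 = (y - 1) * (y + 1) by ring, abs_mul, abs_of_pos (show 0 < y + 1 by
          linarith)]

/-- comparison of two values of `I` -/
theorem ratio {m n : ℕ} {μ : ℝ} (hμ : 10 ≤ μ) (hm : 3 / 4 * μ ≤ m) (hn : 3 / 4 * μ ≤ n) :
    |I n ^ 2 * ((n : ℝ) + 7 / 4) ^ 3 / (I m ^ 2 * ((m : ℝ) + 7 / 4) ^ 3) - 1| ≤ 1 / μ ^ 2 := by
  have key : ∀ j : ℕ, 3 / 4 * μ ≤ (j : ℝ) → I j ^ 2 * ((j : ℝ) + 7 / 4) ^ 3 * (1 - 1 / (2 * μ ^ 2)) ≤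
      I j ^ 2 * (((j : ℝ) + 7 / 4) ^ 3 - 5 / 32 * ((j : ℝ) + 7 / 4)) := by
    intro j hj
    rw [mul_assoc]
    refine mul_le_mul_of_nonneg_left ?_ (by positivity)
    have hx : 0 < (j : ℝ) + 7 / 4 := by positivity
    have h1 : 5 / 32 * ((j : ℝ) + 7 / 4) ≤ ((j : ℝ) + 7 / 4) ^ 3 * (1 / (2 * μ ^ 2)) := by
      rw [mul_one_div, le_div_iff₀ (by positivity)]
      have h2 : (3 / 4 * μ) ^ 2 ≤ ((j : ℝ) + 7 / 4) ^ 2 :=
        pow_le_pow_left₀ (by positivity) (by linarith) 2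
      calc 5 / 32 * ((j : ℝ) + 7 / 4) * (2 * μ ^ 2) = ((j : ℝ) + 7 / 4) * (5 / 16 * μ ^ 2) := by ring
        _ ≤ ((j : ℝ) + 7 / 4) * ((j : ℝ) + 7 / 4) ^ 2 :=
            mul_le_mul_of_nonneg_left (by nlinarith [sq_nonneg μ]) hx.le
        _ = _ := by ring
    linarith
  have hμ2 : 1 / μ ^ 2 ≤ 1 / 100 := by
    rw [div_le_div_iff₀ (by positivity) (by norm_num)]
    nlinarith
  have e2 : 1 / (2 * μ ^ 2) = 1 / μ ^ 2 / 2 := by
    field_simp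
  rw [e2] at key
  obtain ⟨δ, hδ⟩ : ∃ δ, δ = 1 / μ ^ 2 := ⟨_, rfl⟩
  rw [← hδ] at key hμ2 ⊢
  have hδ0 : 0 < δ := by rw [hδ]; positivity
  have hAm : 0 < I m ^ 2 * ((m : ℝ) + 7 / 4) ^ 3 := by have := I_pos m; positivity
  have hAn : 0 < I n ^ 2 * ((n : ℝ) + 7 / 4) ^ 3 := by have := I_pos n; positivity
  have up : ∀ j : ℕ, I j ^ 2 * (((j : ℝ) + 7 / 4) ^ 3 - 5 / 32 * ((j : ℝ) + 7 / 4)) ≤
      I j ^ 2 * ((j : ℝ) + 7 / 4) ^ 3 := fun j =>
    mul_le_mul_of_nonneg_left (by have : (0:ℝ) ≤ j := Nat.cast_nonneg j; linarith) (by positivity)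
  rw [abs_le]
  rcases le_total m n with h | h
  · have h1 := C_anti h
    have h2 := D_mono h
    simp only at h1 h2
    constructor
    · rw [neg_le_sub_iff_le_add, ← sub_le_iff_le_add, le_div_iff₀ hAm]
      have := key m hm
      have := up n
      nlinarith
    · rw [sub_le_iff_le_add, div_le_iff₀ hAm]
      nlinarith
  · have h1 := C_anti h
    have h2 := D_mono h
    simp only at h1 h2
    constructor
    · rw [neg_le_sub_iff_le_add, ← sub_le_iff_le_add, le_div_iff₀ hAm]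
      nlinarith
    · rw [sub_le_iff_le_add, div_le_iff₀ hAm]
      have h3 := key n hn
      have h4 := up m
      have h5 : I n ^ 2 * ((n : ℝ) + 7 / 4) ^ 3 * (1 - δ / 2) ≤ I m ^ 2 * ((m : ℝ) + 7 / 4) ^ 3 := by
        linarith
      have h6 : 1 ≤ (δ + 1) * (1 - δ / 2) := by nlinarith
      calc I n ^ 2 * ((n : ℝ) + 7 / 4) ^ 3 ≤
            I n ^ 2 * ((n : ℝ) + 7 / 4) ^ 3 * ((δ + 1) * (1 - δ / 2)) :=
            le_mul_of_one_le_right hAn.le h6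
        _ = (δ + 1) * (I n ^ 2 * ((n : ℝ) + 7 / 4) ^ 3 * (1 - δ / 2)) := by ring
        _ ≤ _ := mul_le_mul_of_nonneg_left h5 (by linarith)

/-- JOB RH2 -/
theorem t_RH2 : P_RH2 := by
  refine ⟨100, by norm_num, fun μ hμ => ?_⟩
  have hμ0 : 0 < μ := by linarith
  obtain ⟨m, hm⟩ : ∃ m : ℕ, m = ⌈2 * μ⌉₊ := ⟨_, rfl⟩
  have hm1 : 2 * μ ≤ m := by rw [hm]; exact Nat.le_ceil _
  obtain ⟨M, hM⟩ : ∃ M : ℝ, M = 2 * μ + 7 / 4 := ⟨_, rfl⟩
  have hM0 : 0 < M := by rw [hM]; positivity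
  obtain ⟨A, hA⟩ : ∃ A : ℝ, A = I m ^ 2 * ((m : ℝ) + 7 / 4) ^ 3 := ⟨_, rfl⟩
  have hA0 : 0 < A := by rw [hA]; have := I_pos m; positivity
  obtain ⟨I0, hI0⟩ : ∃ I0 : ℝ, I0 = √(A / M ^ 3) := ⟨_, rfl⟩
  have hI0p : 0 < I0 := by rw [hI0]; exact Real.sqrt_pos.2 (by positivity)
  have hI0s : I0 ^ 2 = A / M ^ 3 := by rw [hI0]; exact Real.sq_sqrt (by positivity)
  have hsq : ∀ n : ℕ, (I n / I0) ^ 2 =
      (I n ^ 2 * ((n : ℝ) + 7 / 4) ^ 3 / A) * (M / (n + 7 / 4)) ^ 3 := by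
    intro n
    have : (0:ℝ) < (n : ℝ) + 7 / 4 := by positivity
    rw [div_pow, hI0s, div_pow]
    field_simp
  refine ⟨I0, hI0p, fun n => ?_, fun n hn => ?_⟩
  · have h2 : I n / I0 ≤ I 0 / I0 :=
      div_le_div_of_nonneg_right (I_anti (Nat.zero_le n)) hI0p.le
    refine h2.trans ?_
    have hA5 : 5 ≤ A := by
      have h3 := D_mono (Nat.zero_le m)
      simp only at h3
      have h4 : I m ^ 2 * (((m : ℝ) + 7 / 4) ^ 3 - 5 / 32 * ((m : ℝ) + 7 / 4)) ≤ A := by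
        rw [hA]
        exact mul_le_mul_of_nonneg_left
          (by have : (0:ℝ) ≤ m := Nat.cast_nonneg m; linarith) (by positivity)
      have h5 : I 0 = 1 := rfl
      rw [h5] at h3
      norm_num at h3
      linarith
    have h3 : (I 0 / I0) ^ 2 ≤ (100 * μ ^ 2) ^ 2 := by
      rw [div_pow, hI0s, show I 0 = 1 from rfl, one_pow, one_div_div, div_le_iff₀ hA0]
      have h4 : M ≤ 3 * μ := by rw [hM]; linarith
      calc M ^ 3 ≤ (3 * μ) ^ 3 := pow_le_pow_left₀ hM0.le h4 3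
        _ = 27 * μ ^ 3 := by ring
        _ ≤ 27 * (μ ^ 3 * μ) := by
            have : μ ^ 3 ≤ μ ^ 3 * μ := le_mul_of_one_le_right (by positivity) (by linarith)
            linarith
        _ ≤ (100 * μ ^ 2) ^ 2 * 5 := by
            have : 0 ≤ μ ^ 3 * μ := by positivity
            nlinarith
        _ ≤ _ := mul_le_mul_of_nonneg_left hA5 (by positivity)
    exact (pow_le_pow_iff_left₀ (div_pos (I_pos 0) hI0p).le (by positivity) two_ne_zero).1 h3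
  · have hrt := ratio (m := m) (n := n) hμ (by linarith) hn
    rw [← hA] at hrt
    have hx : (0:ℝ) < (n : ℝ) + 7 / 4 := by positivity
    obtain ⟨y, hy⟩ : ∃ y : ℝ, y = √(((n : ℝ) + 7 / 4) / M) := ⟨_, rfl⟩
    have hy0 : 0 < y := by rw [hy]; exact Real.sqrt_pos.2 (by positivity)
    have hys : y ^ 2 = ((n : ℝ) + 7 / 4) / M := by rw [hy]; exact Real.sq_sqrt (by positivity)
    have hu : uu μ n = y ^ 2 - 1 := by
      rw [hys, uu, hM]
      field_simp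
      ring
    have hy2 : 1 / 2 ≤ y := by
      have h1 : 1 / 4 ≤ y ^ 2 := by
        rw [hys, le_div_iff₀ hM0, hM]
        linarith
      by_contra hc
      have hc' := not_le.1 hc
      nlinarith
    obtain ⟨B, hB⟩ : ∃ B : ℝ, B = I n ^ 2 * ((n : ℝ) + 7 / 4) ^ 3 / A := ⟨_, rfl⟩
    have hB0 : 0 ≤ B := by rw [hB]; positivity
    rw [← hB] at hrt
    have hδ : 1 / μ ^ 2 ≤ 1 / 100 := by
      rw [div_le_div_iff₀ (by positivity) (by norm_num)]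
      nlinarith
    obtain ⟨δ, hδd⟩ : ∃ δ, δ = 1 / μ ^ 2 := ⟨_, rfl⟩
    rw [← hδd] at hrt hδ ⊢
    have hr := hsq n
    rw [← hB] at hr
    have hr0 : 0 < I n / I0 := div_pos (I_pos n) hI0p
    constructor
    · refine (pow_le_pow_iff_left₀ hr0.le (by norm_num) two_ne_zero).1 ?_
      rw [hr]
      have h1 : M / ((n : ℝ) + 7 / 4) ≤ 8 / 3 := by
        rw [div_le_iff₀ hx, hM]
        linarith
      have h2 : (M / ((n : ℝ) + 7 / 4)) ^ 3 ≤ (8 / 3) ^ 3 :=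
        pow_le_pow_left₀ (by positivity) h1 3
      have h3 : B ≤ 101 / 100 := by
        have := (abs_le.1 hrt).2
        linarith
      calc B * (M / ((n : ℝ) + 7 / 4)) ^ 3 ≤ 101 / 100 * (8 / 3) ^ 3 :=
            mul_le_mul h3 h2 (by positivity) (by norm_num)
        _ ≤ _ := by norm_num
    · have hrs : I n / I0 = √B * (1 / y ^ 3) := by
        have h1 : (I n / I0) ^ 2 = (√B * (1 / y ^ 3)) ^ 2 := by
          rw [hr, mul_pow, Real.sq_sqrt hB0]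
          congr 1
          rw [div_pow 1 (y ^ 3), ← pow_mul, mul_comm 3 2, pow_mul, hys, one_pow, div_pow, div_pow,
            one_div_div]
        exact (pow_left_inj₀ hr0.le (by positivity) two_ne_zero).1 h1
      have hsB : |√B - 1| ≤ δ := by
        have h1 : (√B - 1) * (√B + 1) = B - 1 := by
          have := Real.sq_sqrt hB0
          nlinarith
        have h2 : |√B - 1| * (√B + 1) = |B - 1| := by
          rw [← h1, abs_mul, abs_of_pos (show 0 < √B + 1 by positivity)]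
        have h3 : |√B - 1| * 1 ≤ |√B - 1| * (√B + 1) :=
          mul_le_mul_of_nonneg_left (by linarith [Real.sqrt_nonneg B]) (abs_nonneg _)
        linarith
      have hT := taylor4 hy2
      have h8 : 1 / y ^ 3 ≤ 8 := by
        rw [div_le_iff₀ (by positivity)]
        have : (1 / 2 : ℝ) ^ 3 ≤ y ^ 3 := pow_le_pow_left₀ (by norm_num) hy2 3
        norm_num at this
        linarith
      have h9 : |√B * (1 / y ^ 3) - 1 / y ^ 3| ≤ 8 * δ := by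
        rw [show √B * (1 / y ^ 3) - 1 / y ^ 3 = (√B - 1) * (1 / y ^ 3) by ring, abs_mul,
          abs_of_pos (show 0 < 1 / y ^ 3 by positivity)]
        calc |√B - 1| * (1 / y ^ 3) ≤ δ * 8 :=
              mul_le_mul hsB h8 (by positivity) (by linarith [abs_nonneg (√B - 1)])
          _ = _ := by ring
      rw [hrs, hu]
      have h10 : √B * (1 / y ^ 3) - q4 (y ^ 2 - 1) =
          (√B * (1 / y ^ 3) - 1 / y ^ 3) + (1 / y ^ 3 - q4 (y ^ 2 - 1)) := by ring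
      rw [h10]
      refine (abs_add_le _ _).trans ?_
      have h11 : 0 ≤ |y ^ 2 - 1| ^ 5 := by positivity
      have h12 : 0 ≤ δ := by linarith [abs_nonneg (√B - 1)]
      linarith

end Pool.Agent.Q121.MK
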