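import Pool.Agent.Q291.MK.Stm5
import Pool.Agent.Q150.MK.EXPM
import Pool.Agent.Q121.MK.RH2

/-! # Project MK (helper291), job EA2: expansion of a weighted expectation to fourth order -/

set_option autoImplicit false

namespace Pool.Agent.Q121.MK

open Pool.Agent.Q291.MK

theorem q4_le {x : ℝ} (h : |x| ≤ 1) : |q4 x| ≤ 11 := by
  have h1 : |x| ^ 2 ≤ 1 := pow_le_one₀ (abs_nonneg _) h
  have h2 : |x| ^ 3 ≤ 1 := pow_le_one₀ (abs_nonneg _) h
  have h3 : |x| ^ 4 ≤ 1 := pow_le_one₀ (abs_nonneg _) h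
  rw [← abs_pow] at h1 h2 h3
  rw [abs_le] at h h1 h2 h3 ⊢
  unfold q4
  constructor <;> linarith [h.1, h.2, h1.1, h1.2, h2.1, h2.2, h3.1, h3.2]

/-- JOB EA2 -/
theorem t_EA2 : P_RH2 → P_EA2 := by
  intro hR
  have hE := Pool.Agent.Q150.MK.t_EXPM
  obtain ⟨D, hD, hR⟩ := hR
  refine ⟨(D + 11) * 4 ^ 16, by positivity, fun C3 C8 hC8 a ha hm => ?_⟩
  have hA := ha.toAM
  set μ := mean a with hμ
  have hμ0 : 0 < μ := by linarith
  obtain ⟨I0, hI0, hb1, hb2⟩ := hR μ hm
  have hDle : D ≤ (D + 11) * 4 ^ 16 := by nlinarith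
  refine ⟨I0, hI0, ?_⟩
  intro φ B hφ hB hφB
  have hEM := (hE C3 C8 a ha (by linarith)).2.1 φ B hφ hB hφB
  rw [← hμ] at hEM
  -- the polynomial and the error
  set P : ℕ → ℕ → ℝ := fun K L => q4 (uu μ (K + L)) with hP
  set Q : ℕ → ℕ → ℝ := fun K L => |uu μ (K + L)| ^ 5 + 1 / μ ^ 2 with hQ
  set J : ℕ → ℕ → ℝ := fun K L => if (K:ℝ) + L < 3 / 4 * μ then |φ K L| else 0 with hJ
  have bX : PB2 (fun K L => (K:ℝ) + L - 2 * μ) :=
    ((PB2.fst PB.id).add (PB2.snd PB.id)).sub (PB2.const _)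
  have bU : PB2 (fun K L => uu μ (K + L)) := bX.div_const (2 * μ + 7 / 4)
  have bP : PB2 P := ((((PB2.const 1).sub ((PB2.const (3 / 2)).mul bU)).add
    ((PB2.const (15 / 8)).mul (bU.pow 2))).sub ((PB2.const (35 / 16)).mul (bU.pow 3))).add
    ((PB2.const (315 / 128)).mul (bU.pow 4))
  have bQ : PB2 Q := (bU.abs.pow 5).add (PB2.const (1 / μ ^ 2))
  have bJ : PB2 J := hφ.abs.of_le fun K L => by
    simp only [hJ]
    split_ifs
    · rw [abs_abs]
    · rw [abs_zero]; exact abs_nonneg _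
  have hQ0 : ∀ K L, 0 ≤ Q K L := fun K L => by simp only [hQ]; positivity
  have hJ0 : ∀ K L, 0 ≤ J K L := fun K L => by
    simp only [hJ]
    split_ifs
    · exact abs_nonneg _
    · exact le_rfl
  have hJE : E2 a J ≤ 4 ^ 16 * B * C8 ^ 2 / μ ^ 8 := hEM
  have hJend : (D + 11) * μ ^ 2 * E2 a J ≤ (D + 11) * 4 ^ 16 * B * C8 ^ 2 / μ ^ 6 := by
    calc (D + 11) * μ ^ 2 * E2 a J ≤ (D + 11) * μ ^ 2 * (4 ^ 16 * B * C8 ^ 2 / μ ^ 8) :=
          mul_le_mul_of_nonneg_left hJE (by positivity)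
      _ = _ := by field_simp
  have hρ : ∀ K L : ℕ, 3 / 4 * μ ≤ (K:ℝ) + L →
      |I (K + L) / I0 - P K L| ≤ D * Q K L := by
    intro K L h
    have h1 := (hb2 (K + L) (by push_cast; exact h)).2
    push_cast at h1
    exact h1
  have e1 : E2 a (fun K L => I (K + L) * φ K L) / I0 =
      E2 a (fun K L => (I (K + L) / I0) * φ K L) := by
    rw [div_eq_inv_mul, ← E2_const_mul]
    congr 1
    funext K L
    ring
  have bI : PB2 (fun K L => (I (K + L) / I0) * φ K L) := (PB2.I.div_const I0).mul hφ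
  have e2 := hA.E2_sub bI (bP.mul hφ)
  have e3 : E2 a (fun K L => P K L * φ K L) = E2 a (fun K L => q4 (uu μ (K + L)) * φ K L) := rfl
  rw [e1, ← e3, ← e2]
  refine (hA.abs_E2_le (bI.sub (bP.mul hφ))).trans ?_
  have h1 := hA.E2_mono (bI.sub (bP.mul hφ)).abs
    (((PB2.const D).mul (hφ.abs.mul bQ)).add ((PB2.const ((D + 11) * μ ^ 2)).mul bJ))
    (fun K L => by
      have hK : (0:ℝ) ≤ K := Nat.cast_nonneg K
      have hL : (0:ℝ) ≤ L := Nat.cast_nonneg L
      have e4 : I (K + L) / I0 * φ K L - P K L * φ K L = (I (K + L) / I0 - P K L) * φ K L := by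
        ring
      rw [e4, abs_mul]
      rcases le_or_gt (3 / 4 * μ) ((K:ℝ) + L) with h | h
      · have h2 := hρ K L h
        have h3 : |I (K + L) / I0 - P K L| * |φ K L| ≤ D * Q K L * |φ K L| :=
          mul_le_mul_of_nonneg_right h2 (abs_nonneg _)
        have h4 : 0 ≤ (D + 11) * μ ^ 2 * J K L := mul_nonneg (by positivity) (hJ0 K L)
        calc _ ≤ D * Q K L * |φ K L| := h3
          _ = D * (|φ K L| * Q K L) := by ring
          _ ≤ _ := by linarith
      · have hJv : J K L = |φ K L| := by simp only [hJ]; rw [if_pos h]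
        have h5 := hb1 (K + L)
        have h6 : 0 < I (K + L) / I0 := div_pos (I_pos _) hI0
        have h7 : |uu μ (K + L)| ≤ 1 := by
          rw [uu, abs_div, abs_of_pos (show 0 < 2 * μ + 7 / 4 by positivity),
            div_le_one (by positivity), abs_le]
          constructor <;> linarith
        have h8 : |P K L| ≤ 11 := q4_le h7
        have h14 : |I (K + L) / I0 - P K L| ≤ (D + 11) * μ ^ 2 := by
          have h15 : |I (K + L) / I0 - P K L| ≤ |I (K + L) / I0| + |P K L| := abs_sub _ _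
          rw [abs_of_pos h6] at h15
          have h16 : 1 ≤ μ ^ 2 := one_le_pow₀ (by linarith)
          nlinarith
        rw [hJv]
        have h17 : 0 ≤ D * (|φ K L| * Q K L) :=
          mul_nonneg hD.le (mul_nonneg (abs_nonneg _) (hQ0 K L))
        have h18 := mul_le_mul_of_nonneg_right h14 (abs_nonneg (φ K L))
        linarith)
  refine h1.trans ?_
  rw [hA.E2_add ((PB2.const D).mul (hφ.abs.mul bQ))
    ((PB2.const ((D + 11) * μ ^ 2)).mul bJ), E2_const_mul, E2_const_mul]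
  have h2 : 0 ≤ E2 a (fun K L => |φ K L| * Q K L) := by
    have := hA.E2_mono (PB2.const 0) (hφ.abs.mul bQ)
      (fun K L => mul_nonneg (abs_nonneg _) (hQ0 K L))
    rwa [hA.E2_cst] at this
  exact add_le_add (mul_le_mul_of_nonneg_right hDle h2) hJend

/-- JOB EA2, unconditionally -/
theorem ea2 : P_EA2 := t_EA2 t_RH2

end Pool.Agent.Q121.MK
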